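import Pool.Agent.Helper69.RN.St

/-! Ring noise, module TH: thickness of non-atomic levels (Markov over subcells). -/

set_option autoImplicit false

namespace Pool.Agent.Helper69.RN

open Finset Pool.Agent.Helper69.RK Pool.Agent.Helper61.GL Pool.Agent.Helper46.WF Pool.Agent.Helper92.W

theorem th_ref (l u : ℕ) {x y : ℝ} (e : fl (l + u) x = fl (l + u) y) : fl l x = fl l y := by
  have h : ∀ z : ℝ, fl l z = fl (l + u) z / ((2 ^ u : ℕ) : ℤ) := by
    intro z
    unfold fl
    rw [← Int.floor_div_natCast]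
    congr 1
    push_cast
    rw [eq_div_iff (by positivity), pow_add]
    ring
  rw [h, h, e]

theorem th_NA_congr {Ω : Type} [Fintype Ω] (μ : Ω → ℝ) (v : Ω → ℝ) (ρ : ℕ) (a : ℝ) (l : ℕ) {ω ω' : Ω}
    (h : fl l (v ω) = fl l (v ω')) : NA μ v ρ a l ω ↔ NA μ v ρ a l ω' := by
  have h1 : cw μ (fun ω' => fl l (v ω')) ω = cw μ (fun ω' => fl l (v ω')) ω' := by
    funext x
    exact cw_congr μ (fun ω' => fl l (v ω')) h x
  unfold NA
  rw [h1]

theorem st_TH : ST_TH := by
  classical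
  intro Ω _ μ v hμ hm ρ l u M a0 a hu ha0 ha
  set G : Ω → ℤ := fun ω => fl l (v ω) with hG
  set G' : Ω → ℤ := fun ω => fl (l + u) (v ω) with hG'
  have hx : ∀ c : ℤ, ∃ x : ℝ, ∀ ω, G ω = c → ¬ NA μ v (ρ + M) a l ω →
      Pw (cw μ G ω) (fun ω' => (1 / 2 : ℝ) ^ (l + (ρ + M)) < |v ω' - x|) < a := by
    intro c
    by_cases h : ∃ ω, G ω = c ∧ ¬ NA μ v (ρ + M) a l ω
    · obtain ⟨ω0, h1, h2⟩ := h
      unfold NA at h2
      push Not at h2
      obtain ⟨x, h3⟩ := h2
      refine ⟨x, fun ω h4 _ => ?_⟩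
      have h5 : cw μ G ω = cw μ G ω0 := by
        funext y
        exact cw_congr μ G (h4.trans h1.symm) y
      rw [h5]
      exact h3
    · exact ⟨0, fun ω h1 h2 => absurd ⟨ω, h1, h2⟩ h⟩
  choose x hx using hx
  set b : Ω → ℝ := fun ω => if ¬ NA μ v (ρ + M) a l ω ∧ (1 / 2 : ℝ) ^ (l + (ρ + M)) < |v ω - x (G ω)|
    then 1 else 0 with hb
  have hb0 : ∀ ω, 0 ≤ b ω := by
    intro ω
    simp only [hb]
    split_ifs
    · exact zero_le_one
    · exact le_rfl
  -- upper bound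
  have hup : ∑ ω, μ ω * b ω ≤ a := by
    rw [← sum_cw μ hμ G b]
    have h1 : ∀ ω, ∑ ω', cw μ G ω ω' * b ω' ≤ a := by
      intro ω
      by_cases hF : ¬ NA μ v (ρ + M) a l ω
      · refine le_trans (Finset.sum_le_sum (g := fun ω' => if (1 / 2 : ℝ) ^ (l + (ρ + M)) < |v ω' - x (G ω)|
          then cw μ G ω ω' else 0) fun ω' _ => ?_) (le_of_lt (hx (G ω) ω rfl hF))
        by_cases h0 : cw μ G ω ω' = 0
        · rw [h0, zero_mul]
          split_ifs <;> exact le_rfl
        · have h2 := (cw_ne_zero μ G h0).1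
          have h3 := cw_nonneg μ G hμ ω ω'
          show cw μ G ω ω' * (if ¬ NA μ v (ρ + M) a l ω' ∧
            (1 / 2 : ℝ) ^ (l + (ρ + M)) < |v ω' - x (G ω')| then 1 else 0) ≤ _
          rw [h2]
          by_cases h4 : (1 / 2 : ℝ) ^ (l + (ρ + M)) < |v ω' - x (G ω)|
          · rw [if_pos h4]
            split_ifs
            · rw [mul_one]
            · rw [mul_zero]
              exact h3
          · rw [if_neg h4, if_neg (fun h => h4 h.2), mul_zero]
      · refine le_trans (le_of_eq ?_) ha.le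
        refine Finset.sum_eq_zero fun ω' _ => ?_
        by_cases h0 : cw μ G ω ω' = 0
        · rw [h0, zero_mul]
        · have h2 : fl l (v ω') = fl l (v ω) := (cw_ne_zero μ G h0).1
          show cw μ G ω ω' * (if ¬ NA μ v (ρ + M) a l ω' ∧
            (1 / 2 : ℝ) ^ (l + (ρ + M)) < |v ω' - x (G ω')| then 1 else 0) = 0
          rw [if_neg, mul_zero]
          intro h3
          exact hF (fun h4 => h3.1 ((th_NA_congr μ v (ρ + M) a l h2).mpr h4))
    calc ∑ ω, μ ω * ∑ ω', cw μ G ω ω' * b ω' ≤ ∑ ω, μ ω * a :=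
          Finset.sum_le_sum fun ω _ => mul_le_mul_of_nonneg_left (h1 ω) (hμ ω)
      _ = a := by
          rw [← Finset.sum_mul]
          have h2 : ∑ ω, μ ω = 1 := hm
          rw [h2, one_mul]
  -- lower bound
  have hlow : Pw μ (fun ω => NA μ v ρ a0 (l + u) ω ∧ ¬ NA μ v (ρ + M) a l ω) * a0 ≤ ∑ ω, μ ω * b ω := by
    rw [← sum_cw μ hμ G' b]
    unfold Pw
    rw [Finset.sum_mul]
    refine Finset.sum_le_sum fun ω _ => ?_
    by_cases hE : NA μ v ρ a0 (l + u) ω ∧ ¬ NA μ v (ρ + M) a l ω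
    · rw [if_pos hE]
      refine mul_le_mul_of_nonneg_left ?_ (hμ ω)
      refine le_trans (hE.1 (x (G ω))) ?_
      unfold Pw
      refine Finset.sum_le_sum fun ω' _ => ?_
      by_cases h0 : cw μ G' ω ω' = 0
      · rw [h0, zero_mul]
        split_ifs <;> exact le_rfl
      · have h2 : fl (l + u) (v ω') = fl (l + u) (v ω) := (cw_ne_zero μ G' h0).1
        have h3 := th_ref l u h2
        have h4 := cw_nonneg μ G' hμ ω ω'
        show (if (1 / 2 : ℝ) ^ (l + u + ρ) < |v ω' - x (G ω)| then cw μ G' ω ω' else 0) ≤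
          cw μ G' ω ω' * (if ¬ NA μ v (ρ + M) a l ω' ∧
            (1 / 2 : ℝ) ^ (l + (ρ + M)) < |v ω' - x (G ω')| then 1 else 0)
        have h5 : G ω' = G ω := h3
        rw [h5]
        by_cases h6 : (1 / 2 : ℝ) ^ (l + u + ρ) < |v ω' - x (G ω)|
        · rw [if_pos h6, if_pos, mul_one]
          refine ⟨fun h7 => hE.2 ((th_NA_congr μ v (ρ + M) a l h3).mp h7), lt_of_le_of_lt ?_ h6⟩
          exact pow_le_pow_of_le_one (by norm_num) (by norm_num) (by omega)
        · rw [if_neg h6]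
          refine mul_nonneg h4 ?_
          split_ifs
          · exact zero_le_one
          · exact le_rfl
    · rw [if_neg hE, zero_mul]
      refine mul_nonneg (hμ ω) (Finset.sum_nonneg fun ω' _ => mul_nonneg (cw_nonneg μ G' hμ ω ω') (hb0 ω'))
  rw [le_div_iff₀ ha0]
  exact hlow.trans hup

end Pool.Agent.Helper69.RN
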